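import Pool.Agent.H50.ODG.Targets

/-!
# The models have two orbits on the edges (PTW)
-/

set_option autoImplicit false

open Pool.Agent.H57.CP Pool.Agent.H39.TO Pool.Agent.H39.OD Pool.Agent.H50.ODG

namespace Pool.Agent.H13.ODG

theorem sn_pos {u : ℚ} (h0 : 0 < u) (h1 : u < 1) : 0 < sn u := by
  have h0' : (0 : ℝ) < (u : ℝ) := by exact_mod_cast h0
  have h1' : (u : ℝ) < 1 := by exact_mod_cast h1
  have hpi := Real.pi_pos
  exact Real.sin_pos_of_pos_of_lt_pi (by positivity) (by nlinarith)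

/-- `cos ^ 2` is injective on the angles with sum `< π` -/
theorem cn_sq_ne {u v : ℚ} (hu : 0 < u) (hv : 0 < v) (huv : u + v < 1) (hne : u ≠ v) :
    cn u ^ 2 ≠ cn v ^ 2 := by
  have hu' : (0 : ℝ) < (u : ℝ) := by exact_mod_cast hu
  have hv' : (0 : ℝ) < (v : ℝ) := by exact_mod_cast hv
  have huv' : (u : ℝ) + (v : ℝ) < 1 := by exact_mod_cast huv
  have hpi := Real.pi_pos
  have hne' : (u : ℝ) ≠ (v : ℝ) := by exact_mod_cast hne
  intro h
  have h2 : Real.sin (((u : ℝ) + v) * Real.pi) * Real.sin (((u : ℝ) - v) * Real.pi) = 0 := by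
    have e1 : ((u : ℝ) + v) * Real.pi = u * Real.pi + v * Real.pi := by ring
    have e2 : ((u : ℝ) - v) * Real.pi = u * Real.pi - v * Real.pi := by ring
    rw [e1, e2, Real.sin_add, Real.sin_sub]
    have s1 := Real.sin_sq_add_cos_sq ((u : ℝ) * Real.pi)
    have s2 := Real.sin_sq_add_cos_sq ((v : ℝ) * Real.pi)
    unfold cn at h
    linear_combination (Real.cos ((v : ℝ) * Real.pi)) ^ 2 * s1 -
      (Real.cos ((u : ℝ) * Real.pi)) ^ 2 * s2 - h
  rcases mul_eq_zero.1 h2 with h3 | h3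
  · have : 0 < Real.sin (((u : ℝ) + v) * Real.pi) :=
      Real.sin_pos_of_pos_of_lt_pi (by positivity) (by nlinarith)
    exact absurd h3 this.ne'
  · have h4 := (Real.sin_eq_zero_iff_of_lt_of_lt (by nlinarith) (by nlinarith)).1 h3
    rcases mul_eq_zero.1 h4 with h5 | h5
    · exact hne' (by linarith)
    · exact absurd h5 hpi.ne'

theorem sin_ne {α β : ℝ} (a0 : 0 < α) (a1 : α < Real.pi) (b0 : 0 < β) (b1 : β < Real.pi)
    (h1 : α ≠ β) (h2 : α + β ≠ Real.pi) : Real.sin α ≠ Real.sin β := by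
  intro h
  have h3 : Real.sin ((α - β) / 2) * Real.cos ((α + β) / 2) = 0 := by
    have := Real.sin_sub_sin α β
    rw [h, sub_self] at this
    linarith
  rcases mul_eq_zero.1 h3 with h4 | h4
  · have h5 := (Real.sin_eq_zero_iff_of_lt_of_lt (by linarith) (by linarith)).1 h4
    exact h1 (by linarith)
  · have h5 : Real.cos ((α + β) / 2) = Real.sin (Real.pi / 2 - (α + β) / 2) :=
      (Real.sin_pi_div_two_sub _).symm
    rw [h5] at h4
    have h6 := (Real.sin_eq_zero_iff_of_lt_of_lt (by linarith) (by linarith)).1 h4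
    exact h2 (by linarith)

theorem pf_PTW (hPAS : T_PAS) (hGEL : T_GEL) (hMDQ : T_MDQ) (hFMB : T_FMB) (hAEG : T_AEG)
    (hCHA : T_CHA) : T_PTW := by
  intro u v w α β h
  obtain ⟨u0, u1, v0, v1, w0, w1, hL⟩ := hGEL u v w α β h
  obtain ⟨hCf, -, hS, hY, hX, -⟩ := hMDQ u v w α β u0 u1 v0 v1 h.a0 h.a1 h.b0 h.b1 hL
  obtain ⟨c1, c2, c3, c4, -, -⟩ := hCHA u v w _ _ _ _ _ hCf
  refine hAEG _ _ _ _ _ (hPAS u v w α β h) ?_
  rw [c1, c2, c3, c4, hX, hY]
  have hsu := sn_pos u0 u1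
  have hsv := sn_pos v0 v1
  have ha : 0 < Real.sin α := Real.sin_pos_of_pos_of_lt_pi h.a0 h.a1
  have hb : 0 < Real.sin β := Real.sin_pos_of_pos_of_lt_pi h.b0 h.b1
  have hXp : 0 < sn u * Real.sin α * eS u v w α β := mul_pos (mul_pos hsu ha) hS
  by_cases hXY : (-(sn u * Real.sin α * eS u v w α β)) ^ 2 =
      (-(sn v * Real.sin β * eS u v w α β)) ^ 2
  · right
    rw [← hXY]
    have huv : u ≠ v := by
      intro huv
      subst huv
      have h2 : sn u * Real.sin α * eS u u w α β = sn u * Real.sin β * eS u u w α β := by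
        have hYp : 0 < sn u * Real.sin β * eS u u w α β := mul_pos (mul_pos hsv hb) hS
        rw [neg_sq, neg_sq] at hXY
        exact (pow_left_inj₀ hXp.le hYp.le two_ne_zero).1 hXY
      have h3 : Real.sin α = Real.sin β :=
        mul_left_cancel₀ hsu.ne' (mul_right_cancel₀ hS.ne' h2)
      rcases h.fam with hf | hf | hf
      · exact (hFMB u u w (Or.inl hf)).2.2.2.2.2.2.2.1 (Or.inl hf) rfl
      · exact (hFMB u u w (Or.inr (Or.inl hf.1))).2.2.2.2.2.2.2.1 (Or.inr hf.1) rfl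
      · exact sin_ne h.a0 h.a1 h.b0 h.b1 hf.2.1 hf.2.2 h3
    have h4 := cn_sq_ne u0 v0 (by have := h.sum; linarith) huv
    intro h5
    apply h4
    have h6 : (0 : ℝ) < (-(sn u * Real.sin α * eS u v w α β)) ^ 2 := by
      rw [neg_sq]
      positivity
    have h7 : 8 * (-(sn u * Real.sin α * eS u v w α β)) ^ 2 * (cn u ^ 2) =
        8 * (-(sn u * Real.sin α * eS u v w α β)) ^ 2 * (cn v ^ 2) := by linarith
    exact mul_left_cancel₀ (by positivity) h7
  · left
    intro h5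
    exact hXY (by linarith)

end Pool.Agent.H13.ODG
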